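import Pool.Agent.H29.DPC.S1
import Pool.Agent.H29.DPC.S2

set_option autoImplicit false

namespace Pool.DPC

open Polynomial Complex

namespace H79GSM

theorem chl_val (f p : ℕ) (h : f ∣ p * f) (psi : DirichletCharacter ℂ f) (hf : f ≠ 0)
    (hp : p.Prime) (a : ℕ) :
    DirichletCharacter.changeLevel h psi (a : ZMod (p * f)) =
      if p ∣ a then 0 else psi (a : ZMod f) := by
  by_cases hpa : p ∣ a
  · rw [if_pos hpa]
    apply MulChar.map_nonunit
    rw [ZMod.isUnit_iff_coprime]
    intro hc
    have h1 : a.Coprime p := Nat.Coprime.coprime_mul_right_right hc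
    exact (Nat.Prime.coprime_iff_not_dvd hp).1 h1.symm hpa
  · rw [if_neg hpa]
    by_cases hc : a.Coprime f
    · have hu : a.Coprime (p * f) :=
        Nat.Coprime.mul_right ((Nat.Prime.coprime_iff_not_dvd hp).2 hpa).symm hc
      have hu' : IsUnit (a : ZMod (p * f)) := (ZMod.isUnit_iff_coprime a (p * f)).2 hu
      obtain ⟨u, hu2⟩ := hu'
      rw [← hu2, DirichletCharacter.changeLevel_eq_cast_of_dvd, hu2, ZMod.cast_natCast h]
    · rw [MulChar.map_nonunit, MulChar.map_nonunit]
      · rw [ZMod.isUnit_iff_coprime]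
        exact hc
      · rw [ZMod.isUnit_iff_coprime]
        intro h2
        exact hc (Nat.Coprime.coprime_mul_left_right h2)

theorem sum_zero (p : ℕ) (hp : p.Prime) :
    ∑ c ∈ Finset.range p, Complex.exp (2 * Real.pi * Complex.I * (c : ℂ) / (p : ℂ)) = 0 := by
  have h1 := (Complex.isPrimitiveRoot_exp p hp.ne_zero).geom_sum_eq_zero hp.one_lt
  rw [← h1]
  refine Finset.sum_congr rfl fun c _ => ?_
  rw [← Complex.exp_nat_mul]
  congr 1
  ring

end H79GSM

open H79GSM in
/-- GSM -/
theorem t_GSM : GSMStmt := by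
  intro f f' p h psi hf hp hpf hf'
  subst hf'
  have hp0 : (p : ℂ) ≠ 0 := by exact_mod_cast hp.ne_zero
  have hf0 : (f : ℂ) ≠ 0 := by exact_mod_cast hf
  have hfpos : 0 < f := Nat.pos_of_ne_zero hf
  unfold gaussTau
  -- split
  have h1 : ∑ a ∈ Finset.range (p * f), (DirichletCharacter.changeLevel h psi) (a : ZMod (p * f)) *
      Complex.exp (2 * Real.pi * Complex.I * (a : ℂ) / ((p * f : ℕ) : ℂ)) =
      ∑ a ∈ Finset.range (p * f), psi (a : ZMod f) *
        Complex.exp (2 * Real.pi * Complex.I * (a : ℂ) / ((p * f : ℕ) : ℂ)) -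
      ∑ a ∈ (Finset.range (p * f)).filter (fun a => p ∣ a), psi (a : ZMod f) *
        Complex.exp (2 * Real.pi * Complex.I * (a : ℂ) / ((p * f : ℕ) : ℂ)) := by
    rw [Finset.sum_filter, ← Finset.sum_sub_distrib]
    refine Finset.sum_congr rfl fun a _ => ?_
    rw [chl_val f p h psi hf hp a]
    split_ifs <;> ring
  have h2 : ∑ a ∈ (Finset.range (p * f)).filter (fun a => p ∣ a), psi (a : ZMod f) *
        Complex.exp (2 * Real.pi * Complex.I * (a : ℂ) / ((p * f : ℕ) : ℂ)) =
      ∑ b ∈ Finset.range f, psi (p : ZMod f) * (psi (b : ZMod f) *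
        Complex.exp (2 * Real.pi * Complex.I * (b : ℂ) / (f : ℂ))) := by
    symm
    refine Finset.sum_nbij' (fun b => p * b) (fun a => a / p) ?_ ?_ ?_ ?_ ?_
    · intro b hb
      rw [Finset.mem_range] at hb
      rw [Finset.mem_filter, Finset.mem_range]
      exact ⟨Nat.mul_lt_mul_of_pos_left hb hp.pos, Dvd.intro _ rfl⟩
    · intro a ha
      rw [Finset.mem_filter, Finset.mem_range] at ha
      rw [Finset.mem_range]
      exact Nat.div_lt_of_lt_mul ha.1
    · intro b _
      exact Nat.mul_div_cancel_left b hp.pos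
    · intro a ha
      rw [Finset.mem_filter] at ha
      exact Nat.mul_div_cancel' ha.2
    · intro b _
      have e0 : ((p * b : ℕ) : ZMod f) = (p : ZMod f) * (b : ZMod f) := by push_cast; ring
      have e1 : 2 * (Real.pi : ℂ) * Complex.I * ((p * b : ℕ) : ℂ) / ((p * f : ℕ) : ℂ) =
          2 * Real.pi * Complex.I * (b : ℂ) / (f : ℂ) := by
        push_cast
        field_simp
      rw [e0, map_mul, e1]
      ring
  have h3 : ∑ a ∈ Finset.range (p * f), psi (a : ZMod f) *
        Complex.exp (2 * Real.pi * Complex.I * (a : ℂ) / ((p * f : ℕ) : ℂ)) = 0 := by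
    have h4 : ∑ a ∈ Finset.range (p * f), psi (a : ZMod f) *
        Complex.exp (2 * Real.pi * Complex.I * (a : ℂ) / ((p * f : ℕ) : ℂ)) =
        ∑ x ∈ Finset.range f ×ˢ Finset.range p, (psi (x.1 : ZMod f) *
          Complex.exp (2 * Real.pi * Complex.I * (x.1 : ℂ) / ((p * f : ℕ) : ℂ))) *
          Complex.exp (2 * Real.pi * Complex.I * (x.2 : ℂ) / (p : ℂ)) := by
      symm
      refine Finset.sum_nbij' (fun x => x.1 + f * x.2) (fun a => (a % f, a / f)) ?_ ?_ ?_ ?_ ?_
      · rintro ⟨b, c⟩ hx
        simp only [Finset.mem_product, Finset.mem_range] at hx ⊢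
        calc b + f * c < f + f * c := by omega
          _ = f * (c + 1) := by ring
          _ ≤ f * p := Nat.mul_le_mul_left f hx.2
          _ = p * f := by ring
      · intro a ha
        simp only [Finset.mem_product, Finset.mem_range] at ha ⊢
        exact ⟨Nat.mod_lt _ hfpos, Nat.div_lt_of_lt_mul (by rw [mul_comm]; exact ha)⟩
      · rintro ⟨b, c⟩ hx
        simp only [Finset.mem_product, Finset.mem_range] at hx ⊢
        have e1 : (b + f * c) % f = b := by
          rw [Nat.add_mul_mod_self_left, Nat.mod_eq_of_lt hx.1]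
        have e2 : (b + f * c) / f = c := by
          rw [Nat.add_mul_div_left _ _ hfpos, Nat.div_eq_of_lt hx.1, zero_add]
        rw [e1, e2]
      · intro a _
        exact Nat.mod_add_div a f
      · rintro ⟨b, c⟩ _
        simp only
        have e1 : ((b + f * c : ℕ) : ZMod f) = (b : ZMod f) := by
          push_cast
          simp
        have e2 : 2 * (Real.pi : ℂ) * Complex.I * ((b + f * c : ℕ) : ℂ) / ((p * f : ℕ) : ℂ) =
            2 * Real.pi * Complex.I * (b : ℂ) / ((p * f : ℕ) : ℂ) +
              2 * Real.pi * Complex.I * (c : ℂ) / (p : ℂ) := by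
          push_cast
          field_simp
        rw [e1, e2, Complex.exp_add]
        ring
    rw [h4, Finset.sum_product]
    refine Finset.sum_eq_zero fun b _ => ?_
    simp only
    rw [← Finset.mul_sum, sum_zero p hp, mul_zero]
  rw [h1, h2, h3, ← Finset.mul_sum]
  ring

end Pool.DPC
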