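import Pool.Agent.H29.DPC.S1

set_option autoImplicit false

namespace Pool.DPC

open Polynomial Complex

namespace H79IDX

theorem exists_nat_pow {G : Type*} [Group G] (x : G) (hx : 0 < orderOf x) (m : ℤ) :
    ∃ i : ℕ, i < orderOf x ∧ x ^ i = x ^ m := by
  have h0 : (0 : ℤ) < (orderOf x : ℤ) := by exact_mod_cast hx
  refine ⟨(m % (orderOf x : ℤ)).toNat, ?_, ?_⟩
  · have h1 := Int.emod_lt_of_pos m h0
    have h2 := Int.emod_nonneg m h0.ne'
    omega
  · have h2 := Int.emod_nonneg m h0.ne'
    have h3 : x ^ (m % (orderOf x : ℤ)) = x ^ m := zpow_mod_orderOf x m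
    rw [← h3, ← zpow_natCast, Int.toNat_of_nonneg h2]

end H79IDX

open H79IDX in
/-- IDX -/
theorem t_IDX (hS : SUPStmt) : IDXStmt := by
  classical
  intro n W R hn hY
  obtain ⟨-, -, -, -, hT1, -, -, hord, hinj⟩ := hS
  constructor
  · intro φ hφ
    have hφ0 := (hord n φ hn hφ).1
    have h := hY φ 1 hφ (hT1 n)
    have hsup1 : sup (1 : Ch) = ∅ := by
      ext l
      simp [sup]
    rw [hsup1, Set.union_empty] at h
    have hset : ((Subgroup.closure {φ, (1 : Ch)} : Subgroup Ch) : Set Ch) =
        (((Finset.range (orderOf φ)).image (fun i => φ ^ i) : Finset Ch) : Set Ch) := by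
      ext z
      simp only [SetLike.mem_coe, Finset.coe_image, Finset.coe_range, Set.mem_image, Set.mem_Iio]
      rw [Subgroup.mem_closure_pair]
      constructor
      · rintro ⟨a, b, rfl⟩
        obtain ⟨i, hi, hi'⟩ := exists_nat_pow φ hφ0 a
        exact ⟨i, hi, by rw [hi', one_zpow, mul_one]⟩
      · rintro ⟨i, hi, rfl⟩
        exact ⟨i, 0, by simp⟩
    rw [hset, finsum_mem_coe_finset, Finset.sum_image] at h
    · exact h
    · intro i hi j hj hij
      simp only [Finset.coe_range, Set.mem_Iio] at hi hj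
      exact pow_injOn_Iio_orderOf (by simpa using hi) (by simpa using hj) hij
  · intro φ χ hφ hχ hd
    have hφ0 := (hord n φ hn hφ).1
    have hχ0 := (hord n χ hn hχ).1
    have h := hY φ χ hφ hχ
    have hset : ((Subgroup.closure {φ, χ} : Subgroup Ch) : Set Ch) =
        ((((Finset.range (orderOf φ)) ×ˢ (Finset.range (orderOf χ))).image
          (fun p : ℕ × ℕ => φ ^ p.1 * χ ^ p.2) : Finset Ch) : Set Ch) := by
      ext z
      simp only [SetLike.mem_coe, Finset.coe_image, Finset.coe_product, Finset.coe_range,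
        Set.mem_image, Set.mem_prod, Set.mem_Iio, Prod.exists]
      rw [Subgroup.mem_closure_pair]
      constructor
      · rintro ⟨a, b, rfl⟩
        obtain ⟨i, hi, hi'⟩ := exists_nat_pow φ hφ0 a
        obtain ⟨j, hj, hj'⟩ := exists_nat_pow χ hχ0 b
        exact ⟨i, j, ⟨hi, hj⟩, by rw [hi', hj']⟩
      · rintro ⟨i, j, ⟨hi, hj⟩, rfl⟩
        exact ⟨i, j, by simp⟩
    rw [hset, finsum_mem_coe_finset, Finset.sum_image] at h
    · rw [Finset.sum_product] at h
      exact h
    · rintro ⟨i, b⟩ hi ⟨i', b'⟩ hj hij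
      simp only [Finset.coe_product, Finset.coe_range, Set.mem_prod, Set.mem_Iio] at hi hj
      obtain ⟨h1, h2⟩ := hinj φ χ hd i b i' b' hij
      have e1 := pow_injOn_Iio_orderOf (by simpa using hi.1) (by simpa using hj.1) h1
      have e2 := pow_injOn_Iio_orderOf (by simpa using hi.2) (by simpa using hj.2) h2
      rw [e1, e2]

end Pool.DPC
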